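import Pool.Agent.Helper32.AG.Goals

set_option autoImplicit false

namespace Pool.Agent.Helper54.AG

open Pool.Agent.Helper32.AG
open scoped commutatorElement

universe u

theorem cnv : CnvStmt.{u} := by
  intro G _ _ _ hsol
  have hne : {N : Subgroup G | N.Normal ∧ N ≠ ⊥}.Nonempty := ⟨⊤, inferInstance, top_ne_bot⟩
  obtain ⟨V, hVm⟩ := (Set.toFinite {N : Subgroup G | N.Normal ∧ N ≠ ⊥}).exists_minimal hne
  have hVn : V.Normal := hVm.prop.1
  have hVb : V ≠ ⊥ := hVm.prop.2
  have hmin : ∀ N : Subgroup G, N.Normal → N ≤ V → N ≠ ⊥ → V ≤ N := fun N h1 h2 h3 =>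
    hVm.le_of_le ⟨h1, h3⟩ h2
  have hcomm0 : ⁅V, V⁆ = ⊥ := by
    by_contra h
    have h1 : V ≤ ⁅V, V⁆ := hmin _ inferInstance (Subgroup.commutator_le_self V) h
    have h2 : ∀ n, V ≤ derivedSeries G n := by
      intro n
      induction n with
      | zero => exact le_top
      | succ n ih => exact h1.trans (Subgroup.commutator_mono ih ih)
    obtain ⟨n, hn⟩ := hsol.solvable
    exact hVb (le_bot_iff.1 (hn ▸ h2 n))
  have hab : ∀ a ∈ V, ∀ b ∈ V, a * b = b * a := by
    intro a ha b hb
    have := Subgroup.commutator_mem_commutator ha hb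
    rw [hcomm0, Subgroup.mem_bot, commutatorElement_eq_one_iff_mul_comm] at this
    exact this
  let instV : CommGroup V :=
    { (inferInstance : Group V) with mul_comm := fun a b => Subtype.ext (hab a a.2 b b.2) }
  have hcard : Nat.card V ≠ 1 := by
    intro h
    exact hVb (Subgroup.card_eq_one.1 h)
  obtain ⟨p, hp, hpd⟩ := Nat.exists_prime_and_dvd hcard
  have hpf : Fact p.Prime := ⟨hp⟩
  let N : Subgroup G :=
    { carrier := {g | g ∈ V ∧ g ^ p = 1}
      one_mem' := ⟨V.one_mem, one_pow p⟩
      mul_mem' := fun {a b} ha hb => ⟨V.mul_mem ha.1 hb.1, by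
        rw [Commute.mul_pow (hab a ha.1 b hb.1) p, ha.2, hb.2, one_mul]⟩
      inv_mem' := fun {a} ha => ⟨V.inv_mem ha.1, by rw [inv_pow, ha.2, inv_one]⟩ }
  have hNn : N.Normal := ⟨fun n hn g => ⟨hVn.conj_mem n hn.1 g, by
    rw [conj_pow, hn.2, mul_one, mul_inv_cancel]⟩⟩
  have hNb : N ≠ ⊥ := by
    obtain ⟨x, hx⟩ := exists_prime_orderOf_dvd_card' (G := V) p hpd
    intro h
    have h1 : (x : G) ∈ N := ⟨x.2, by
      have := pow_orderOf_eq_one x
      rw [hx] at this
      exact congrArg Subtype.val this⟩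
    rw [h, Subgroup.mem_bot] at h1
    have h2 : x = 1 := Subtype.ext h1
    rw [h2, orderOf_one] at hx
    exact hp.one_lt.ne hx
  have hVN : V ≤ N := hmin N hNn (fun g hg => hg.1) hNb
  have hexp : ∀ v : V, v ^ p = 1 := fun v => Subtype.ext (hVN v.2).2
  let modU : Module (ZMod p) (Additive V) :=
    AddCommGroup.zmodModule (n := p) (fun x => hexp (Additive.toMul x))
  let e : G → (Additive V ≃+ Additive V) := fun g =>
    MulEquiv.toAdditive (MulAut.conjNormal g : V ≃* V)
  let ρ : G →* (Additive V ≃ₗ[ZMod p] Additive V) :=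
    { toFun := fun g =>
        { (e g) with map_smul' := fun c x => ZMod.map_smul (e g).toAddMonoidHom c x }
      map_one' := by
        apply LinearEquiv.ext
        intro x
        change Additive.ofMul ((MulAut.conjNormal (1 : G) : V ≃* V) (Additive.toMul x)) = x
        rw [map_one]
        rfl
      map_mul' := by
        intro g h
        apply LinearEquiv.ext
        intro x
        change Additive.ofMul ((MulAut.conjNormal (g * h) : V ≃* V) (Additive.toMul x)) = _
        rw [map_mul]
        rfl }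
  have hρ : ∀ (g : G) (v : V), Additive.ofMul (⟨g * (v : G) * g⁻¹, hVn.conj_mem v v.2 g⟩ : V) =
      ρ g (Additive.ofMul v) := by
    intro g v
    change _ = Additive.ofMul ((MulAut.conjNormal g : V ≃* V) v)
    exact congrArg Additive.ofMul (Subtype.ext (MulAut.conjNormal_apply g v).symm)
  have hnt : Nontrivial (Additive V) := by
    have : Nontrivial V := (Subgroup.nontrivial_iff_ne_bot V).2 hVb
    infer_instance
  refine ⟨p, hpf, V, hVn, Additive V, inferInstance, modU, inferInstance, hnt, ρ, Additive.ofMul,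
    hab, ?_, rfl, hρ, ?_, ?_⟩
  · intro v
    exact ⟨1, by rw [pow_one]; exact hexp v⟩
  · intro g hg
    apply LinearEquiv.ext
    intro x
    have h1 := hρ g (Additive.toMul x)
    rw [ofMul_toMul] at h1
    rw [← h1]
    change _ = x
    have h2 : (⟨g * ((Additive.toMul x : V) : G) * g⁻¹, hVn.conj_mem _ (Additive.toMul x).2 g⟩ : V)
        = Additive.toMul x := by
      apply Subtype.ext
      change g * ((Additive.toMul x : V) : G) * g⁻¹ = ((Additive.toMul x : V) : G)
      rw [hab g hg _ (Additive.toMul x).2, mul_inv_cancel_right]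
    rw [h2]
    rfl
  · intro W hW
    let NW : Subgroup G :=
      { carrier := {g | ∃ h : g ∈ V, Additive.ofMul (⟨g, h⟩ : V) ∈ W}
        one_mem' := ⟨V.one_mem, W.zero_mem⟩
        mul_mem' := fun {a b} ha hb => ⟨V.mul_mem ha.1 hb.1, W.add_mem ha.2 hb.2⟩
        inv_mem' := fun {a} ha => ⟨V.inv_mem ha.1, W.neg_mem ha.2⟩ }
    have hNWn : NW.Normal := ⟨fun n hn g => ⟨hVn.conj_mem n hn.1 g, by
      have := hW (ρ g) ⟨g, rfl⟩ _ hn.2
      rw [← hρ g ⟨n, hn.1⟩] at this
      exact this⟩⟩
    rcases Classical.em (NW = ⊥) with h | h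
    · left
      rw [Submodule.eq_bot_iff]
      intro x hx
      have h1 : ((Additive.toMul x : V) : G) ∈ NW := ⟨(Additive.toMul x).2, hx⟩
      rw [h, Subgroup.mem_bot] at h1
      have h2 : Additive.toMul x = (1 : V) := Subtype.ext h1
      exact h2
    · right
      rw [Submodule.eq_top_iff']
      intro x
      obtain ⟨h1, h2⟩ := hmin NW hNWn (fun g hg => hg.1) h (Additive.toMul x).2
      exact h2

end Pool.Agent.Helper54.AG
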