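import Pool.Agent.Helper32.AG.Goals

set_option autoImplicit false

namespace Pool.Agent.Helper54.AG

open Pool.Agent.Helper32.AG

lemma r9 : ∀ r : ℕ, 9 * r ^ 2 ≤ 4 * 3 ^ r := by
  intro r
  rcases Nat.lt_or_ge r 3 with h | h
  · interval_cases r <;> norm_num
  · induction r, h using Nat.le_induction with
    | base => norm_num
    | succ n hn ih =>
      have h1 : (n + 1) ^ 2 ≤ 3 * n ^ 2 := by nlinarith
      have h2 : 3 ^ (n + 1) = 3 * 3 ^ n := by ring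
      rw [h2]
      omega

lemma n1aux (w : ℕ) (hw : 3 ≤ w) : ∀ t : ℕ,
    2 * (t + 4) ^ 2 * (t + 3) * (w + 1) ^ (t + 4) ≤ 3 ^ (t + 5) * w ^ (2 * t + 5) := by
  intro t
  induction t with
  | zero =>
    have h1 : (3 * (w + 1)) ^ 4 ≤ (4 * w) ^ 4 := Nat.pow_le_pow_left (by omega) 4
    rw [mul_pow, mul_pow] at h1
    have h2 : w ^ 5 = w ^ 4 * w := by ring
    have h3 : w ^ 4 * 3 ≤ w ^ 4 * w := Nat.mul_le_mul_left _ hw
    norm_num at h1 ⊢
    rw [h2]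
    omega
  | succ t ih =>
    have e1 : (t + 5) ^ 2 * (w + 1) ≤ 3 * w ^ 2 * ((t + 4) * (t + 3)) := by
      have a1 : (t + 5) ^ 2 ≤ 3 * ((t + 4) * (t + 3)) := by nlinarith
      have a2 : w + 1 ≤ w ^ 2 := by nlinarith
      calc (t + 5) ^ 2 * (w + 1) ≤ (3 * ((t + 4) * (t + 3))) * w ^ 2 := Nat.mul_le_mul a1 a2
        _ = _ := by ring
    have e2 : (2 * (t + 5) ^ 2 * (t + 4) * (w + 1) ^ (t + 5)) * ((t + 4) * (t + 3)) ≤
        (3 ^ (t + 6) * w ^ (2 * t + 7)) * ((t + 4) * (t + 3)) := by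
      calc (2 * (t + 5) ^ 2 * (t + 4) * (w + 1) ^ (t + 5)) * ((t + 4) * (t + 3))
          = (2 * (t + 4) ^ 2 * (t + 3) * (w + 1) ^ (t + 4)) * ((t + 5) ^ 2 * (w + 1)) := by ring
        _ ≤ (3 ^ (t + 5) * w ^ (2 * t + 5)) * (3 * w ^ 2 * ((t + 4) * (t + 3))) :=
            Nat.mul_le_mul ih e1
        _ = _ := by ring
    exact Nat.le_of_mul_le_mul_right e2 (by positivity)

theorem n1 : N1Stmt := by
  intro s w κ c1 c2 r hs hw hκ hc1 hc2 hr h1 h2 h3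
  obtain ⟨t, rfl⟩ : ∃ t, s = t + 3 := ⟨s - 3, by omega⟩
  rw [Nat.add_sub_cancel]
  have hC : 2 * (t + 3).choose 2 = (t + 3) * (t + 2) := by
    rw [Nat.choose_two_right]
    have : Even ((t + 3) * (t + 3 - 1)) := Nat.even_mul_pred_self _
    rw [Nat.mul_div_cancel' this.two_dvd]
    rfl
  set C := (t + 3).choose 2 with hCdef
  set P1 := 3 ^ c1 with hP1
  set P2 := 3 ^ c2 with hP2
  have e1 : 9 * w ^ (2 * t + 6) ≤ P1 * P2 * ((t + 3) * C) * w ^ 3 * r ^ 2 := by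
    calc 9 * w ^ (2 * t + 6) = 9 * (w ^ (t + 3) * w ^ (t + 3)) := by rw [← pow_add]; ring_nf
      _ ≤ 9 * ((r * κ) * (r * κ)) := Nat.mul_le_mul_left _ (Nat.mul_le_mul h3 h3)
      _ = (3 * κ) * (3 * κ) * r ^ 2 := by ring
      _ ≤ (P1 * ((t + 3) * w)) * (P2 * (C * w ^ 2)) * r ^ 2 :=
          Nat.mul_le_mul_right _ (Nat.mul_le_mul h1 h2)
      _ = _ := by ring
  have e2 : 81 * w ^ (2 * t + 3) ≤ 4 * (P1 * P2 * 3 ^ r) * ((t + 3) * C) := by
    have a1 : (81 * w ^ (2 * t + 3)) * w ^ 3 ≤ (4 * (P1 * P2 * 3 ^ r) * ((t + 3) * C)) * w ^ 3 := by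
      calc (81 * w ^ (2 * t + 3)) * w ^ 3 = 9 * (9 * w ^ (2 * t + 6)) := by ring
        _ ≤ 9 * (P1 * P2 * ((t + 3) * C) * w ^ 3 * r ^ 2) := Nat.mul_le_mul_left _ e1
        _ = (P1 * P2 * ((t + 3) * C) * w ^ 3) * (9 * r ^ 2) := by ring
        _ ≤ (P1 * P2 * ((t + 3) * C) * w ^ 3) * (4 * 3 ^ r) := Nat.mul_le_mul_left _ (r9 r)
        _ = _ := by ring
    exact Nat.le_of_mul_le_mul_right a1 (by positivity)
  have e3 : 3 ^ (t + 4) * w ^ (2 * t + 3) ≤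
      (2 * (t + 3) ^ 2 * (t + 2)) * 3 ^ (c1 + c2 + r + t) := by
    calc 3 ^ (t + 4) * w ^ (2 * t + 3) = 3 ^ t * (81 * w ^ (2 * t + 3)) := by ring
      _ ≤ 3 ^ t * (4 * (P1 * P2 * 3 ^ r) * ((t + 3) * C)) := Nat.mul_le_mul_left _ e2
      _ = 2 * (t + 3) * (2 * C) * (P1 * P2 * 3 ^ r * 3 ^ t) := by ring
      _ = 2 * (t + 3) * ((t + 3) * (t + 2)) * (P1 * P2 * 3 ^ r * 3 ^ t) := by rw [hC]
      _ = (2 * (t + 3) ^ 2 * (t + 2)) * 3 ^ (c1 + c2 + r + t) := by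
          rw [pow_add, pow_add, pow_add]; ring
  -- the comparison
  have key : (2 * (t + 3) ^ 2 * (t + 2)) * (w + 1) ^ (t + 3) ≤ 3 ^ (t + 4) * w ^ (2 * t + 3) →
      (w + 1) ^ (t + 3) ≤ 3 ^ (c1 + c2 + r + t) := by
    intro h
    exact Nat.le_of_mul_le_mul_left (h.trans e3) (by positivity)
  rcases Nat.eq_zero_or_pos t with ht | ht
  · subst ht
    rcases Nat.lt_or_ge w 4 with hw4 | hw4
    · have hw3 : w = 3 := by omega
      subst hw3
      norm_num at h3 ⊢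
      have h5 : 4 ≤ c1 + c2 + r := by
        by_contra hlt
        have b1 : c1 = 1 := by omega
        have b2 : r = 1 := by omega
        rw [hP1, b1] at h1
        rw [b2] at h3
        omega
      calc 64 ≤ 3 ^ 4 := by norm_num
        _ ≤ 3 ^ (c1 + c2 + r) := Nat.pow_le_pow_right (by norm_num) h5
    · apply key
      have h1 : (4 * (w + 1)) ^ 3 ≤ (5 * w) ^ 3 := Nat.pow_le_pow_left (by omega) 3
      rw [mul_pow, mul_pow] at h1
      norm_num at h1 ⊢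
      omega
  · obtain ⟨t', rfl⟩ : ∃ t', t = t' + 1 := ⟨t - 1, by omega⟩
    apply key
    have := n1aux w hw t'
    have e5 : 2 * (t' + 1) + 3 = 2 * t' + 5 := by ring
    rw [e5]
    exact this

end Pool.Agent.Helper54.AG
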