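import Pool.Agent.Helper32.AG.Goals

set_option autoImplicit false

namespace Pool.Agent.Helper54.AG

open Pool.Agent.Helper32.AG

lemma p9 : ∀ p : ℕ, 3 ≤ p → p ^ 9 ≤ 3 ^ (p ^ 2) := by
  intro p hp
  induction p, hp using Nat.le_induction with
  | base => norm_num
  | succ p hp ih =>
    have h1 : (3 * (p + 1)) ^ 9 ≤ (4 * p) ^ 9 := Nat.pow_le_pow_left (by omega) 9
    rw [mul_pow, mul_pow] at h1
    have h2 : 3 ^ ((p + 1) ^ 2) = 3 ^ (p ^ 2) * 3 ^ (2 * p + 1) := by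
      rw [← pow_add]; congr 1; ring
    have h3 : 3 ^ 7 ≤ 3 ^ (2 * p + 1) := Nat.pow_le_pow_right (by norm_num) (by omega)
    have h4 : 3 ^ 9 * (p + 1) ^ 9 ≤ 3 ^ 9 * 3 ^ ((p + 1) ^ 2) := by
      rw [h2]
      calc 3 ^ 9 * (p + 1) ^ 9 ≤ 4 ^ 9 * p ^ 9 := h1
        _ ≤ 4 ^ 9 * 3 ^ (p ^ 2) := Nat.mul_le_mul_left _ ih
        _ ≤ (3 ^ 9 * 3 ^ 7) * 3 ^ (p ^ 2) := Nat.mul_le_mul_right _ (by norm_num)
        _ ≤ (3 ^ 9 * 3 ^ (2 * p + 1)) * 3 ^ (p ^ 2) :=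
            Nat.mul_le_mul_right _ (Nat.mul_le_mul_left _ h3)
        _ = 3 ^ 9 * (3 ^ (p ^ 2) * 3 ^ (2 * p + 1)) := by ring
    exact Nat.le_of_mul_le_mul_left h4 (by norm_num)

lemma cube : ∀ n : ℕ, n ^ 3 ≤ 3 ^ n := by
  intro n
  rcases Nat.lt_or_ge n 3 with h | h
  · interval_cases n <;> norm_num
  · induction n, h using Nat.le_induction with
    | base => norm_num
    | succ n hn ih =>
      have h1 : (3 * (n + 1)) ^ 3 ≤ (4 * n) ^ 3 := Nat.pow_le_pow_left (by omega) 3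
      rw [mul_pow, mul_pow] at h1
      have h2 : 3 ^ (n + 1) = 3 * 3 ^ n := by ring
      rw [h2]
      norm_num at h1
      omega

theorem n4 : N4Stmt := by
  intro p a b r hp hp2 ha hb h
  have hp3 : 3 ≤ p := by
    have := hp.two_le
    omega
  obtain ⟨c, rfl⟩ : ∃ c, b = c + 1 := ⟨b - 1, by omega⟩
  have hc : 1 ≤ c := by omega
  set n : ℕ := 2 * a * c with hn
  have hna : 2 * a ≤ n := by
    rw [hn]; exact Nat.le_mul_of_pos_right _ hc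
  have hn2 : 2 ≤ n := by omega
  obtain ⟨m, hm⟩ : ∃ m, p ^ a = m + 1 := ⟨p ^ a - 1, by
    have := Nat.one_le_pow a p (by omega); omega⟩
  have hm2 : 2 ≤ m := by
    have : p ^ 1 ≤ p ^ a := Nat.pow_le_pow_right (by omega) ha
    rw [pow_one, hm] at this
    omega
  have hpn : p ^ (2 * a * (c + 1)) = p ^ n * (m + 1) ^ 2 := by
    rw [← hm, ← pow_mul, ← pow_add]; congr 1; rw [hn]; ring
  have h1 : p ^ n ≤ 2 * a ^ 2 * r := by
    by_contra hlt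
    rw [not_le] at hlt
    have hQ : 1 ≤ p ^ n := Nat.one_le_pow _ _ (by omega)
    rw [hpn, hm, Nat.add_sub_cancel] at h
    have h2 : (2 * a ^ 2 * r + 1) * m ^ 2 ≤ p ^ n * m ^ 2 := Nat.mul_le_mul_right _ hlt
    have h3 : r * (2 * a ^ 2 * m ^ 2) = (2 * a ^ 2 * r) * m ^ 2 := by ring
    have h4 : p ^ n * (m + 1) ^ 2 = p ^ n * m ^ 2 + p ^ n * (2 * m + 1) := by ring
    have h5 : (2 * a ^ 2 * r + 1) * m ^ 2 = (2 * a ^ 2 * r) * m ^ 2 + m ^ 2 := by ring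
    have h6 : 1 * (2 * m + 1) ≤ p ^ n * (2 * m + 1) := Nat.mul_le_mul_right _ hQ
    omega
  have h2 : 2 * p ^ n ≤ n ^ 2 * r := by
    have h3 : (2 * a) ^ 2 ≤ n ^ 2 := Nat.pow_le_pow_left hna 2
    calc 2 * p ^ n ≤ 2 * (2 * a ^ 2 * r) := Nat.mul_le_mul_left _ h1
      _ = (2 * a) ^ 2 * r := by ring
      _ ≤ n ^ 2 * r := Nat.mul_le_mul_right _ h3
  have h3 : p ^ (2 * a * (c + 1)) ≤ p ^ (2 * n) :=
    Nat.pow_le_pow_right (by omega) (by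
      have : 2 * a * (c + 1) = n + 2 * a := by rw [hn]; ring
      omega)
  refine h3.trans ?_
  obtain ⟨l, hl⟩ : ∃ l, n = l + 2 := ⟨n - 2, by omega⟩
  have h4 : 2 * n ^ 3 * p ^ 2 ≤ 9 * n ^ 2 * r := by
    have e1 : 3 ^ l ≤ p ^ l := Nat.pow_le_pow_left hp3 l
    have e2 : n ^ 3 ≤ 3 ^ l * 9 := by
      have := cube n
      rw [hl, pow_add] at this
      rw [hl]
      simpa using this
    calc 2 * n ^ 3 * p ^ 2 ≤ 2 * (3 ^ l * 9) * p ^ 2 :=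
          Nat.mul_le_mul_right _ (Nat.mul_le_mul_left _ e2)
      _ = 18 * 3 ^ l * p ^ 2 := by ring
      _ ≤ 18 * p ^ l * p ^ 2 := Nat.mul_le_mul_right _ (Nat.mul_le_mul_left _ e1)
      _ = 9 * (2 * p ^ n) := by rw [hl, pow_add]; ring
      _ ≤ 9 * (n ^ 2 * r) := Nat.mul_le_mul_left _ h2
      _ = 9 * n ^ 2 * r := by ring
  have h5 : (p ^ (2 * n)) ^ (9 * n ^ 2) ≤ (3 ^ r) ^ (9 * n ^ 2) := by
    calc (p ^ (2 * n)) ^ (9 * n ^ 2) = (p ^ 9) ^ (2 * n ^ 3) := by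
          rw [← pow_mul, ← pow_mul]; congr 1; ring
      _ ≤ (3 ^ (p ^ 2)) ^ (2 * n ^ 3) := Nat.pow_le_pow_left (p9 p hp3) _
      _ = 3 ^ (2 * n ^ 3 * p ^ 2) := by rw [← pow_mul]; congr 1; ring
      _ ≤ 3 ^ (9 * n ^ 2 * r) := Nat.pow_le_pow_right (by norm_num) h4
      _ = (3 ^ r) ^ (9 * n ^ 2) := by rw [← pow_mul]; congr 1; ring
  exact (Nat.pow_le_pow_iff_left (by positivity)).1 h5

end Pool.Agent.Helper54.AG
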